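import Pool.Agent.R667.WS.Main

/-!
# MP_114da7_co: well separated positions of a consecutive pattern

For every `k ≥ 3`, every `π ∈ S_k` and every `a ≥ 1` there is `C > 0` such that
`p_π(I,n) = C p_π(n) (1 + O(ρ ^ √n))` uniformly over all `√n`-separated `a`-element sets `I`, for
some `ρ < 1`; in particular the error is `O(n ^ (-α))` for every `α > 0`.

The derivation from the Harnack inequality of the transfer operator (formalized by helper556,
helper435, helper152 for MP_249059_co) is due to helper666 and helper556.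
-/

set_option autoImplicit false

namespace Pool.Agent.Results.MP_114da7_co.SeparatedPositions

/-- The word `w` (a permutation of `n` letters, positions numbered `1, ..., n`) has a consecutive
occurrence of `π` that starts at the index `i`. -/
def IsStart {k n : ℕ} (π : Equiv.Perm (Fin k)) (w : Equiv.Perm (Fin n)) (i : ℕ) : Prop :=
  1 ≤ i ∧ i + k ≤ n + 1 ∧ ∀ (a b : Fin k) (s t : Fin n),
    (s : ℕ) + 1 = i + a → (t : ℕ) + 1 = i + b → (w s < w t ↔ π a < π b)

/-- The set `P_π(w)` of all starting indices of consecutive occurrences of `π` in `w`. -/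
def starts {k n : ℕ} (π : Equiv.Perm (Fin k)) (w : Equiv.Perm (Fin n)) : Set ℕ :=
  {i | IsStart π w i}

/-- The number `p_π(I,n)` of permutations `w` of `n` letters with `P_π(w) = I`. -/
noncomputable def count {k : ℕ} (π : Equiv.Perm (Fin k)) (I : Finset ℕ) (n : ℕ) : ℕ :=
  Nat.card {w : Equiv.Perm (Fin n) // starts π w = (I : Set ℕ)}

/-- `I` is a `√n`-separated subset of `{1, ..., n}` -/
def Separated (n : ℕ) (I : Finset ℕ) : Prop :=
  (∀ i ∈ I, 1 ≤ i ∧ i ≤ n) ∧ (∀ i ∈ I, Real.sqrt n ≤ (i : ℝ)) ∧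
  (∀ i ∈ I, ∀ j ∈ I, i < j → Real.sqrt n ≤ (j : ℝ) - (i : ℝ)) ∧
  (∀ i ∈ I, Real.sqrt n ≤ (n : ℝ) - (i : ℝ))

open R556.CP

/-- the pattern as a function on all natural numbers -/
def pat {k : ℕ} (π : Equiv.Perm (Fin k)) (a : ℕ) : ℕ := if h : a < k then (π ⟨a, h⟩ : ℕ) else 0

lemma pat_lt {k : ℕ} (π : Equiv.Perm (Fin k)) (a b : Fin k) : pat π a < pat π b ↔ π a < π b := by
  unfold pat
  rw [dif_pos a.2, dif_pos b.2]
  exact Iff.rfl

lemma pat_inj {k : ℕ} (π : Equiv.Perm (Fin k)) : Set.InjOn (pat π) (Set.Iio k) := by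
  intro a ha b hb hab
  have ha' : a < k := ha
  have hb' : b < k := hb
  unfold pat at hab
  rw [dif_pos ha', dif_pos hb'] at hab
  have := π.injective (Fin.ext hab)
  exact congrArg Fin.val this

lemma isStart_iff {K n : ℕ} (π : Equiv.Perm (Fin (K + 1))) (w : Equiv.Perm (Fin n)) {i : ℕ}
    (hi : i + (K + 1) ≤ n) :
    IsStart π w (i + 1) ↔ RelOcc (K + 1) (pat π) n (fun s t => w s < w t) i := by
  constructor
  · rintro ⟨-, -, h⟩ a ha b hb s t hs ht
    have := h ⟨a, ha⟩ ⟨b, hb⟩ s t (by simp only []; omega) (by simp only []; omega)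
    rw [← pat_lt π] at this
    exact this
  · intro h
    refine ⟨by omega, by omega, fun a b s t hs ht => ?_⟩
    rw [← pat_lt π]
    exact h a a.2 b b.2 s t (by omega) (by omega)

lemma count_eq {K n M0 : ℕ} (π : Equiv.Perm (Fin (K + 1))) (I : Finset ℕ) (hI : ∀ i ∈ I, 1 ≤ i)
    (hM : ∀ i ∈ I, i + K ≤ M0) (hn : M0 ≤ n) :
    count π I n = cnt K (pat π) {i | i + 1 ∈ I} n := by
  unfold count cnt
  rw [Nat.card_eq_fintype_card, Fintype.card_subtype]
  congr 1
  ext w
  simp only [Finset.mem_filter, Finset.mem_univ, true_and, Set.mem_ofPred_eq]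
  constructor
  · intro h i hi
    rw [← isStart_iff π w hi]
    have : i + 1 ∈ starts π w ↔ i + 1 ∈ (I : Set ℕ) := by rw [h]
    exact this
  · intro h
    ext j
    show IsStart π w j ↔ j ∈ I
    rcases j with _ | i
    · constructor
      · rintro ⟨h1, -⟩
        omega
      · intro h0
        have := hI 0 h0
        omega
    · by_cases hi : i + (K + 1) ≤ n
      · rw [isStart_iff π w hi]
        exact h i hi
      · constructor
        · rintro ⟨-, h2, -⟩
          omega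
        · intro hj
          have := hM _ hj
          omega

lemma count_le {k : ℕ} (π : Equiv.Perm (Fin k)) (I : Finset ℕ) (n : ℕ) :
    count π I n ≤ n.factorial := by
  unfold count
  rw [Nat.card_eq_fintype_card]
  refine (Fintype.card_subtype_le _).trans ?_
  rw [Fintype.card_perm, Fintype.card_fin]

lemma count_empty_pos {K : ℕ} (hK : 1 ≤ K) (π : Equiv.Perm (Fin (K + 1))) (n : ℕ) :
    1 ≤ count π ∅ n := by
  rw [count_eq (M0 := 0) π ∅ (by simp) (by simp) (Nat.zero_le n)]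
  have he : {i : ℕ | i + 1 ∈ (∅ : Finset ℕ)} = (∅ : Set ℕ) := by ext; simp
  rw [he]
  exact Nat.one_le_iff_ne_zero.2 (cnt_empty_pos hK n)

/-- the bound with an exponential of the integer square root -/
lemma main_bound {K : ℕ} (hK : 2 ≤ K) (π : Equiv.Perm (Fin (K + 1))) (a : ℕ) :
    ∃ (C rho B : ℝ), 0 < C ∧ 0 < rho ∧ rho < 1 ∧ 0 ≤ B ∧ ∀ n : ℕ, ∀ I : Finset ℕ,
      I.card = a → Separated n I →
        |(count π I n : ℝ) - C * count π ∅ n| ≤ B * rho ^ (Nat.sqrt n) * (C * count π ∅ n) := by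
  classical
  obtain ⟨D, rho, c, hD, hr0, hr1, hc0, hct, hcl⟩ :=
    Pool.Agent.R667.WS.main_sep (K := K) (p := pat π) hK (pat_inj π) a
  have hC : 0 < c.toReal := ENNReal.toReal_pos hc0 hct
  set s0 := 4 * K + 7 with hs0
  set n0 := s0 * s0 with hn0
  set B1 := D * Real.exp D * (rho ^ (K + 1))⁻¹ with hB1
  set B2 := ((n0.factorial : ℝ) / c.toReal + 1) * (rho ^ s0)⁻¹ with hB2
  have hB1' : 0 ≤ B1 := by positivity
  have hB2' : 0 ≤ B2 := by positivity
  refine ⟨c.toReal, rho, B1 + B2, hC, hr0, hr1, by positivity, fun n I hI hsep => ?_⟩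
  have hp1 : (1 : ℝ) ≤ (count π ∅ n : ℝ) := by exact_mod_cast count_empty_pos (by omega) π n
  have hCp : 0 ≤ c.toReal * (count π ∅ n : ℝ) := by positivity
  set s := Nat.sqrt n with hs
  have hrs : 0 < rho ^ s := by positivity
  by_cases hbig : s0 ≤ s
  · obtain ⟨h1, h2, h3, h4⟩ := hsep
    have hsr : (s : ℝ) ≤ Real.sqrt n := Real.nat_sqrt_le_real_sqrt
    have g1 : ∀ i ∈ I, s ≤ i := fun i hi => by exact_mod_cast hsr.trans (h2 i hi)
    have g2 : ∀ i ∈ I, ∀ j ∈ I, i < j → i + s ≤ j := fun i hi j hj hij => by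
      have := hsr.trans (h3 i hi j hj hij)
      have h5 : (i : ℝ) + s ≤ j := by linarith
      exact_mod_cast h5
    have g3 : ∀ i ∈ I, i + s ≤ n := fun i hi => by
      have := hsr.trans (h4 i hi)
      have h5 : (i : ℝ) + s ≤ n := by linarith
      exact_mod_cast h5
    have hsn : s ≤ n := Nat.sqrt_le_self n
    obtain ⟨N, hN⟩ : ∃ N, n = K + N := ⟨n - K, by omega⟩
    set J : Finset ℕ := I.image (fun i => i - 1) with hJ
    have hJmem : ∀ j, j ∈ J ↔ j + 1 ∈ I := by
      intro j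
      rw [hJ, Finset.mem_image]
      constructor
      · rintro ⟨i, hi, rfl⟩
        rwa [Nat.sub_add_cancel (h1 i hi).1]
      · intro h
        exact ⟨j + 1, h, by omega⟩
    have hJset : (J : Set ℕ) = {i | i + 1 ∈ I} := by
      ext j
      simp only [Finset.mem_coe, Set.mem_ofPred_eq]
      exact hJmem j
    have hJcard : J.card = a := by
      rw [hJ, Finset.card_image_of_injOn, hI]
      intro x hx y hy hxy
      have := (h1 x hx).1
      have := (h1 y hy).1
      simp only at hxy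
      omega
    have hest := hcl J N (s - (K + 1)) (by omega) hJcard (by omega)
      (fun j hj => by
        have h5 := (hJmem j).1 hj
        have := g1 _ h5
        have := g3 _ h5
        constructor <;> omega)
      (fun j hj j' hj' hlt => by
        have := g2 _ ((hJmem j).1 hj) _ ((hJmem j').1 hj') (by omega)
        omega)
    have he : (∅ : Set ℕ) = {i : ℕ | i + 1 ∈ (∅ : Finset ℕ)} := by ext; simp
    rw [hJset, he, ← hN, ← count_eq (M0 := n) π I (fun i hi => (h1 i hi).1)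
      (fun i hi => by have := g3 i hi; omega) le_rfl,
      ← count_eq (M0 := n) π ∅ (by simp) (by simp) le_rfl] at hest
    have hreal := hest.real (by positivity) hct
    refine hreal.trans ?_
    have e1 : rho ^ (s - (K + 1)) ≤ 1 := pow_le_one₀ hr0.le hr1.le
    have e2 : Real.exp (D * rho ^ (s - (K + 1))) ≤ Real.exp D := by
      refine Real.exp_le_exp.2 ?_
      nlinarith
    have e3 : rho ^ (s - (K + 1)) = (rho ^ (K + 1))⁻¹ * rho ^ s := by
      have : rho ^ s = rho ^ (s - (K + 1)) * rho ^ (K + 1) := by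
        rw [← pow_add]; congr 1; omega
      rw [this]
      have : rho ^ (K + 1) ≠ 0 := by positivity
      field_simp
    have e4 : D * rho ^ (s - (K + 1)) * Real.exp (D * rho ^ (s - (K + 1)))
        ≤ B1 * rho ^ s := by
      calc D * rho ^ (s - (K + 1)) * Real.exp (D * rho ^ (s - (K + 1)))
          ≤ D * rho ^ (s - (K + 1)) * Real.exp D := by gcongr
        _ = B1 * rho ^ s := by rw [hB1, e3]; ring
    have e5 : B1 * rho ^ s ≤ (B1 + B2) * rho ^ s := by
      have : 0 ≤ B2 * rho ^ s := by positivity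
      linarith
    exact mul_le_mul_of_nonneg_right (e4.trans e5) hCp
  · push Not at hbig
    have hn : n ≤ n0 := by
      have : n < (s + 1) * (s + 1) := Nat.lt_succ_sqrt n
      have : (s + 1) * (s + 1) ≤ s0 * s0 := Nat.mul_le_mul (by omega) (by omega)
      omega
    have hle : (count π I n : ℝ) ≤ (n0.factorial : ℝ) := by
      exact_mod_cast (count_le π I n).trans (Nat.factorial_le hn)
    have e1 : |(count π I n : ℝ) - c.toReal * count π ∅ n|
        ≤ (n0.factorial : ℝ) + c.toReal * count π ∅ n := by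
      rw [abs_le]
      have : (0 : ℝ) ≤ (count π I n : ℝ) := by positivity
      have : (0 : ℝ) ≤ (n0.factorial : ℝ) := by positivity
      constructor <;> linarith
    have e2 : (n0.factorial : ℝ) + c.toReal * count π ∅ n
        ≤ ((n0.factorial : ℝ) / c.toReal + 1) * (c.toReal * count π ∅ n) := by
      have e3 : ((n0.factorial : ℝ) / c.toReal + 1) * (c.toReal * count π ∅ n)
          = (n0.factorial : ℝ) * count π ∅ n + c.toReal * count π ∅ n := by
        field_simp
      rw [e3]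
      have : (n0.factorial : ℝ) * 1 ≤ (n0.factorial : ℝ) * count π ∅ n := by gcongr
      linarith
    have e4 : (n0.factorial : ℝ) / c.toReal + 1 ≤ B2 * rho ^ s := by
      rw [hB2, mul_assoc]
      have : 1 ≤ (rho ^ s0)⁻¹ * rho ^ s := by
        rw [← div_eq_inv_mul, one_le_div (by positivity)]
        exact pow_le_pow_of_le_one hr0.le hr1.le hbig.le
      have h6 : (0 : ℝ) ≤ (n0.factorial : ℝ) / c.toReal + 1 := by positivity
      nlinarith
    have e5 : B2 * rho ^ s ≤ (B1 + B2) * rho ^ s := by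
      have : 0 ≤ B1 * rho ^ s := by positivity
      linarith
    exact (e1.trans e2).trans (mul_le_mul_of_nonneg_right (e4.trans e5) hCp)

/-- `n ^ m * rho ^ (integer square root)` is bounded -/
lemma pow_bound (rho : ℝ) (h0 : 0 < rho) (h1 : rho < 1) (m : ℕ) :
    ∃ B : ℝ, 0 ≤ B ∧ ∀ n : ℕ, 1 ≤ n → (n : ℝ) ^ m * rho ^ (Nat.sqrt n) ≤ B := by
  have hlim := tendsto_pow_const_mul_const_pow_of_abs_lt_one (2 * m)
    (show |rho| < 1 by rw [abs_of_pos h0]; exact h1)
  obtain ⟨B0, hB0⟩ := hlim.bddAbove_range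
  have hB0' : ∀ s : ℕ, (s : ℝ) ^ (2 * m) * rho ^ s ≤ B0 := fun s => hB0 ⟨s, rfl⟩
  have hB00 : 0 ≤ B0 := le_trans (by positivity) (hB0' 0)
  refine ⟨4 ^ m * B0, by positivity, fun n hn => ?_⟩
  set s := Nat.sqrt n with hs
  have hs1 : 1 ≤ s := Nat.sqrt_pos.2 hn
  have hns : n < (s + 1) * (s + 1) := Nat.lt_succ_sqrt n
  have hns2 : (n : ℝ) ≤ 4 * (s : ℝ) ^ 2 := by
    have h3 : n ≤ 4 * s ^ 2 := by nlinarith
    exact_mod_cast h3
  calc (n : ℝ) ^ m * rho ^ s ≤ (4 * (s : ℝ) ^ 2) ^ m * rho ^ s := by gcongr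
    _ = 4 ^ m * ((s : ℝ) ^ (2 * m) * rho ^ s) := by rw [mul_pow, ← pow_mul]; ring
    _ ≤ 4 ^ m * B0 := by gcongr; exact hB0' s

theorem result : ∀ (k : ℕ), 3 ≤ k → ∀ (π : Equiv.Perm (Fin k)) (a : ℕ), 1 ≤ a →
    ∃ C : ℝ, 0 < C ∧
      (∃ (ρ B : ℝ), 0 < ρ ∧ ρ < 1 ∧ ∀ n : ℕ, ∀ I : Finset ℕ, I.card = a → Separated n I →
        |(count π I n : ℝ) - C * count π ∅ n| ≤ B * ρ ^ (Real.sqrt n) * (C * count π ∅ n)) ∧
      ∀ α : ℝ, 0 < α → ∃ B : ℝ, ∀ n : ℕ, 1 ≤ n → ∀ I : Finset ℕ, I.card = a → Separated n I →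
        |(count π I n : ℝ) - C * count π ∅ n| ≤ B * (n : ℝ) ^ (-α) * (C * count π ∅ n) := by
  intro k hk π a _
  obtain ⟨K, rfl⟩ : ∃ K, k = K + 1 := ⟨k - 1, by omega⟩
  obtain ⟨C, rho, B, hC, hr0, hr1, hB, hmain⟩ := main_bound (K := K) (by omega) π a
  refine ⟨C, hC, ⟨rho, B * rho⁻¹, hr0, hr1, fun n I hI hsep => ?_⟩, fun α hα => ?_⟩
  · refine (hmain n I hI hsep).trans ?_
    have h1 : rho ^ (Nat.sqrt n) ≤ rho⁻¹ * rho ^ (Real.sqrt n) := by
      have h2 : Real.sqrt n ≤ (Nat.sqrt n : ℝ) + 1 := Real.real_sqrt_le_nat_sqrt_succ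
      have h3 : rho ^ ((Nat.sqrt n : ℝ) + 1) ≤ rho ^ (Real.sqrt n) :=
        Real.rpow_le_rpow_of_exponent_ge hr0 hr1.le h2
      rw [Real.rpow_add hr0, Real.rpow_natCast, Real.rpow_one] at h3
      rw [← div_eq_inv_mul, le_div_iff₀ hr0]
      exact h3
    have h4 : 0 ≤ C * (count π ∅ n : ℝ) := by positivity
    refine mul_le_mul_of_nonneg_right ?_ h4
    calc B * rho ^ (Nat.sqrt n) ≤ B * (rho⁻¹ * rho ^ (Real.sqrt n)) := by gcongr
      _ = B * rho⁻¹ * rho ^ (Real.sqrt n) := by ring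
  · obtain ⟨B', hB', hpow⟩ := pow_bound rho hr0 hr1 ⌈α⌉₊
    refine ⟨B * B', fun n hn I hI hsep => ?_⟩
    refine (hmain n I hI hsep).trans ?_
    have hn0 : (1 : ℝ) ≤ n := by exact_mod_cast hn
    have hpos : (0 : ℝ) < n := by linarith
    have h2 : rho ^ (Nat.sqrt n) ≤ B' * (n : ℝ) ^ (-α) := by
      rw [Real.rpow_neg hpos.le, ← div_eq_mul_inv, le_div_iff₀ (Real.rpow_pos_of_pos hpos _)]
      have h3 : (n : ℝ) ^ α ≤ (n : ℝ) ^ (⌈α⌉₊ : ℕ) := by
        rw [← Real.rpow_natCast]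
        exact Real.rpow_le_rpow_of_exponent_le hn0 (Nat.le_ceil α)
      calc rho ^ (Nat.sqrt n) * (n : ℝ) ^ α ≤ rho ^ (Nat.sqrt n) * (n : ℝ) ^ (⌈α⌉₊ : ℕ) := by
            gcongr
        _ = (n : ℝ) ^ (⌈α⌉₊ : ℕ) * rho ^ (Nat.sqrt n) := mul_comm _ _
        _ ≤ B' := hpow n hn
    have h4 : 0 ≤ C * (count π ∅ n : ℝ) := by positivity
    refine mul_le_mul_of_nonneg_right ?_ h4
    calc B * rho ^ (Nat.sqrt n) ≤ B * (B' * (n : ℝ) ^ (-α)) := by gcongr
      _ = B * B' * (n : ℝ) ^ (-α) := by ring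

end Pool.Agent.Results.MP_114da7_co.SeparatedPositions
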